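import Pool.Agent.H50.FU.Path
import Pool.Agent.H52.FU.Path
import Pool.Agent.H1.FU.Slide
import Pool.Agent.H75.FU.Defs

/-!
# Project FULL: the phase slip property of the action
-/

set_option autoImplicit false

namespace Pool.Agent.H50.FU

open Filter Topology
open Pool.Agent.H47.QG (Pt Gen)
open Pool.Agent.H47.ST
open Pool.Agent.H45.AC (shG Adm_QK Adm_qK Adm_Dm)
open Pool.Agent.H75.FU (Slip)

section car

variable {ι : Type*} [Fintype ι] [DecidableEq ι]

/-- the carrier homotopy of the boxes of a path -/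
theorem carOut_path (F : Type*) [Field F] {L : AddSubgroup (ι → ℤ)}
    {P : ℝ → ((ι → ℝ) →L[ℝ] (ι → ℝ))} {π : Equiv.Perm ι} (h0 : ∀ y, P 0 y = y)
    (h1 : ∀ y, P 1 y = y ∘ π) (hlat : ∀ t, ∀ l ∈ L, P t (rl l) = rl l)
    (hlπ : ∀ l ∈ L, l ∘ π = l) (m J : ℕ) (hJ : 0 < J) :
    CarOut F (lam L m) π J (loP P J) (hiP P J) := by
  have hlm : ∀ l ∈ lam L m, l ∘ π = l := by
    rintro _ ⟨l, hl, rfl⟩
    funext i
    have h2 := congrFun (hlπ l hl) i
    simp only [Function.comp_apply, Pi.smul_apply] at h2 ⊢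
    rw [h2]
  obtain ⟨H, h2, h3, h4⟩ := Pool.Agent.H52.FU.exists_H F J hJ (loP P J) (hiP P J)
    (fun j v => loP_le_hiP P J j v) π (fun v => ⟨loP_zero h0 J v, hiP_zero h0 J v⟩)
    (fun v => ⟨loP_one h1 hJ v, hiP_one h1 hJ v⟩) (lam L m)
    (fun j l hl v => loP_add hlat J j m hl v) (fun j l hl v => hiP_add hlat J j m hl v) hlm
  refine ⟨H, fun a σ hσ => h2 a σ hσ, fun a σ hne => ?_, fun a ha l hl σ =>
    h4 l hl a (ha l hl) σ⟩
  obtain ⟨-, -, ρ, h5, h6, h7, k, hk, h8⟩ := h3 a σ hne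
  exact ⟨ρ, h5, h6, h7, k, hk, h8⟩

end car

/-- the action is close to `Q` -/
theorem fS_le_QK {n : ℕ} {S : ℕ → Pt n → ℝ} (K : ℕ) [NeZero K] {B : ℝ}
    (hB : ∀ j z, |S j z| ≤ B) (y : Iz n K → ℝ) : fS S K y ≤ QK n K y + K * B := by
  have e : fS S K y = QK n K y -
      ∑ j : Fin K, S j ((eK n K y (j + 1)).1, (eK n K y j).2) := by
    rw [fS, Pool.Agent.H47.QG.action, Finset.sum_sub_distrib]
    rfl
  have h1 : ∑ j : Fin K, -S j ((eK n K y (j + 1)).1, (eK n K y j).2) ≤ ∑ _j : Fin K, B :=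
    Finset.sum_le_sum fun j _ => by
      have h2 := (abs_le.1 (hB j ((eK n K y (j + 1)).1, (eK n K y j).2))).1
      linarith
  rw [Finset.sum_neg_distrib, Finset.sum_const, Finset.card_univ, Fintype.card_fin,
    nsmul_eq_mul] at h1
  rw [e]
  linarith

/-- **Phase slip lemma.** At an odd level `m` the shift by one period `N` has a loss of level
independent of `m`. -/
theorem slip_fS {n : ℕ} {S : ℕ → Pt n → ℝ} {N m L : ℕ} (hN : 0 < N) (hm : Odd m)
    (hL : L = m * N) [NeZero L]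
    (hper : ∀ j, S (j + N) = S j) {B : ℝ} (hB : ∀ j z, |S j z| ≤ B)
    (F : Type*) [Field F] {g : (Iz n L → ℝ) → ℝ} {C : ℝ} (hsm : ContDiff ℝ 2 g)
    (hg : PerL (Lc n L) g) (hgr : ∀ y b, |fderiv ℝ g y (Pi.single b 1) - DK n L y b| ≤ C)
    (hinv : ∀ y, g (y ∘ shG n L N) = g y) (hsup : ∀ y, |g y - fS S L y| ≤ 1) :
    Slip F n L (shG n L N) g (4 * N * B + 3) := by
  haveI : NeZero N := ⟨hN.ne'⟩
  intro b₀
  have hB0 : 0 ≤ B := (abs_nonneg _).trans (hB 0 0)
  rcases isEmpty_or_nonempty (Iz n L) with hemp | hne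
  · refine ⟨0, fun R _ b _ => Eventually.of_forall fun M j c _ _ => ⟨0, Submodule.zero_mem _, ?_⟩⟩
    rw [map_zero, sub_eq_zero]
    funext σ
    rw [Free_Tp]
    congr 1
    ext w
    rw [Free_mem]
    constructor
    · intro hw
      exact ⟨w, hw, Subsingleton.elim _ _⟩
    · rintro ⟨v, hv, -⟩
      rwa [Subsingleton.elim w v]
  obtain ⟨P, hPc, hP0, hP1, hlat, -, hPf⟩ :=
    Pool.Agent.H1.FU.slides_raw n hper hB m L hL hm
  have hlπ : ∀ l ∈ Lc n L, l ∘ shG n L N = l := by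
    rintro l ⟨c, hc⟩
    funext a
    obtain ⟨j, b⟩ := a
    exact (hc _ _).trans (hc j b).symm
  have hgP : ∀ t y, g (P t y) ≤ g y + (4 * N * B + 2) := fun t y => by
    have h1 := abs_le.1 (hPf t y)
    have h2 := abs_le.1 (hsup y)
    have h3 := abs_le.1 (hsup (P t y))
    linarith [h1.2, h2.1, h3.2]
  have hgQ : ∀ y, g y ≤ QK n L y + (L * B + 1) := fun y => by
    have h2 := abs_le.1 (hsup y)
    have h3 := fS_le_QK L hB y
    linarith [h2.2]
  have hBd : ∃ R₀ : ℝ, ∀ R ≥ R₀, ∀ a ≥ R₀, Bd (qK n L) (QK n L) R a g := by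
    obtain ⟨R₀, -, h⟩ := dom_Bd n L one_pos C
    refine ⟨R₀, fun R hR a ha => ?_⟩
    have h1 := (h R hR a ha g (hsm.differentiable (by norm_num)) (fun y b => by
      rw [one_mul]
      exact hgr y b)).1
    simp only [one_mul] at h1
    exact h1
  obtain ⟨R₀, h⟩ := slip_path (L := Lc n L) (q := qK n L) (Q := QK n L) (g := g)
    (π := shG n L N) (P := P) (C := 4 * N * B + 2) (s := L * B + 1)
    (fun R a => Adm_Dm n L R a) hBd hPc hlat hgP hgQ (Adm_qK n L N) (Adm_QK n L N) hinv hlπ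
    (by positivity) (hsm.of_le (by norm_num)) hg F
    (fun m' J _ hJ => carOut_path F hP0 hP1 hlat hlπ m' J hJ) b₀
  refine ⟨R₀, fun R hR b hb => ?_⟩
  have h2 : Tendsto (fun M : ℕ => 2 ^ M) atTop atTop :=
    tendsto_pow_atTop_atTop_of_one_lt one_lt_two
  filter_upwards [h2.eventually (h R hR b hb)] with M hM j c hc hd
  have e : b - (4 * N * B + 3) = b - (4 * N * B + 2 + 1) := by ring
  rw [e]
  exact hM j c hc hd

end Pool.Agent.H50.FU
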