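import Pool.Agent.H50.FU.Use

/-!
# Project FULL, PSL: the phase slip property of a path of linear maps
-/

set_option autoImplicit false

namespace Pool.Agent.H50.FU

open Filter Topology
open Pool.Agent.H47.ST
open Pool.Agent.H64.FU

variable {ι : Type*} [Fintype ι] [DecidableEq ι]

omit [DecidableEq ι] in
/-- constants of a path on a compact set -/
theorem path_data {P : ℝ → ((ι → ℝ) →L[ℝ] (ι → ℝ))} (hP : Continuous P) {K : Set (ι → ℝ)}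
    (hK : IsCompact K) {q g : (ι → ℝ) → ℝ} (hq : Continuous q) (hg : Continuous g) :
    ∃ B ρ₀ δ R' : ℝ, 0 ≤ ρ₀ ∧ 0 < δ ∧ (∀ t ∈ Set.Icc (0 : ℝ) 1, ‖P t‖ ≤ B) ∧
      (∀ y ∈ K, ‖y‖ ≤ ρ₀) ∧
      ∀ t ∈ Set.Icc (0 : ℝ) 1, ∀ y ∈ K, ∀ z, ‖z - P t y‖ < δ →
        q z ≤ R' ∧ g z < g (P t y) + 1 := by
  obtain ⟨B, hB⟩ := (isCompact_Icc (a := (0 : ℝ)) (b := 1)).exists_bound_of_continuousOn
    hP.continuousOn
  obtain ⟨ρ, hρ⟩ := hK.exists_bound_of_continuousOn (f := fun y => y) continuousOn_id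
  have hc : Continuous fun p : ℝ × (ι → ℝ) => P p.1 p.2 :=
    (hP.comp continuous_fst).clm_apply continuous_snd
  have hK2 : IsCompact ((fun p : ℝ × (ι → ℝ) => P p.1 p.2) '' (Set.Icc (0 : ℝ) 1 ×ˢ K)) :=
    (isCompact_Icc.prod hK).image hc
  obtain ⟨C, hC⟩ := hK2.exists_bound_of_continuousOn hq.continuousOn
  have h1 := hK2.uniformContinuousAt_of_continuousAt q (fun a _ => hq.continuousAt)
    (Metric.dist_mem_uniformity one_pos)
  have h2 := hK2.uniformContinuousAt_of_continuousAt g (fun a _ => hg.continuousAt)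
    (Metric.dist_mem_uniformity one_pos)
  obtain ⟨δ₁, hδ₁, h1⟩ := Metric.mem_uniformity_dist.1 h1
  obtain ⟨δ₂, hδ₂, h2⟩ := Metric.mem_uniformity_dist.1 h2
  refine ⟨B, max ρ 0, min δ₁ δ₂, C + 1, le_max_right _ _, lt_min hδ₁ hδ₂, hB,
    fun y hy => (hρ y hy).trans (le_max_left _ _), fun t ht y hy z hz => ?_⟩
  have hmem : P t y ∈ (fun p : ℝ × (ι → ℝ) => P p.1 p.2) '' (Set.Icc (0 : ℝ) 1 ×ˢ K) :=
    ⟨(t, y), ⟨ht, hy⟩, rfl⟩
  have hd : dist (P t y) z < min δ₁ δ₂ := by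
    rw [dist_comm, dist_eq_norm]
    exact hz
  have h3 : dist (q (P t y)) (q z) < 1 := h1 (hd.trans_le (min_le_left _ _)) hmem
  have h4 : dist (g (P t y)) (g z) < 1 := h2 (hd.trans_le (min_le_right _ _)) hmem
  rw [Real.dist_eq] at h3 h4
  have h5 := (abs_le.1 (hC _ hmem)).2
  constructor
  · linarith [(abs_lt.1 h3).1]
  · linarith [(abs_lt.1 h4).1]

omit [DecidableEq ι] in
/-- small steps -/
theorem path_steps {P : ℝ → ((ι → ℝ) →L[ℝ] (ι → ℝ))} (hP : Continuous P) {ε : ℝ} (hε : 0 < ε) :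
    ∃ J : ℕ, 0 < J ∧ ∀ k < J, ‖P (((k + 1 : ℕ) : ℝ) / J) - P ((k : ℝ) / J)‖ ≤ ε := by
  have hu := (isCompact_Icc (a := (0 : ℝ)) (b := 1)).uniformContinuousOn_of_continuous
    hP.continuousOn
  obtain ⟨δ, hδ, h⟩ := Metric.uniformContinuousOn_iff.1 hu ε hε
  obtain ⟨J, hJ⟩ := exists_nat_gt (max 1 (1 / δ))
  have hJ1 : (1 : ℝ) < J := (le_max_left _ _).trans_lt hJ
  have hJ0 : (0 : ℝ) < J := by linarith
  have hJδ : 1 / (J : ℝ) < δ := by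
    rw [div_lt_iff₀ hJ0]
    have h1 := (le_max_right _ _).trans_lt hJ
    rw [div_lt_iff₀ hδ] at h1
    linarith
  have ht : ∀ i : ℕ, i ≤ J → ((i : ℝ) / J) ∈ Set.Icc (0 : ℝ) 1 := by
    intro i hi
    refine ⟨by positivity, ?_⟩
    rw [div_le_one hJ0]
    exact_mod_cast hi
  refine ⟨J, by exact_mod_cast hJ0, fun k hk => ?_⟩
  rw [← dist_eq_norm]
  refine (h _ (ht (k + 1) hk) _ (ht k hk.le) ?_).le
  rw [Real.dist_eq, ← sub_div]
  push_cast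
  rw [add_sub_cancel_left, abs_of_pos (by positivity)]
  exact hJδ

/-- **Phase slip for a path of linear maps.** -/
theorem slip_path {L : AddSubgroup (ι → ℤ)} {q Q g : (ι → ℝ) → ℝ} {π : Equiv.Perm ι}
    {P : ℝ → ((ι → ℝ) →L[ℝ] (ι → ℝ))} {C s : ℝ} [Nonempty ι]
    (hDm : ∀ R a, Dm L q Q R a) (hBd : ∃ R₀, ∀ R ≥ R₀, ∀ a ≥ R₀, Bd q Q R a g)
    (hP : Continuous P) (hlat : ∀ t, ∀ l ∈ L, P t (rl l) = rl l)
    (hgP : ∀ t y, g (P t y) ≤ g y + C) (hgQ : ∀ y, g y ≤ Q y + s)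
    (hπq : ∀ y, q (y ∘ π) = q y) (hπQ : ∀ y, Q (y ∘ π) = Q y) (hπg : ∀ y, g (y ∘ π) = g y)
    (hlπ : ∀ l ∈ L, l ∘ π = l) (hC0 : 0 ≤ C)
    (hg : ContDiff ℝ 1 g) (hgp : PerL L g) (F : Type*) [Field F]
    (hcar : ∀ m J : ℕ, 0 < m → 0 < J → CarOut F (lam L m) π J (loP P J) (hiP P J)) (b₀ : ℝ) :
    ∃ R₀ : ℝ, ∀ R ≥ R₀, ∀ b ≥ b₀, ∀ᶠ m : ℕ in atTop, ∀ j : ℕ,
      ∀ c ∈ co (F := F) (lam L m) (Xm q R m) (Lv q Q g R R b m) (j + 1),
        dX (Xm q R m) c = 0 →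
        ∃ y ∈ co (F := F) (lam L m) (Xm q R m) (Lv q Q g R R (b - (C + 1)) m) j,
          c - Tp π c = dX (Xm q R m) y := by
  classical
  obtain ⟨R₁, hR₁⟩ := hBd
  refine ⟨max (R₁ + 2) (s + C + 1 - b₀), fun R hR b hb => ?_⟩
  have hRa : R₁ + 2 ≤ R := (le_max_left _ _).trans hR
  have hRb : s + C + 1 - b₀ ≤ R := (le_max_right _ _).trans hR
  obtain ⟨K, hK, hK'⟩ := (hDm R (R + 1)).cpt
  have hqc := (hDm R R).q1.continuous
  have hQc := (hDm R R).Q1.continuous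
  have hqp := (hDm R R).qp
  have hQp := (hDm R R).Qp
  obtain ⟨B, ρ₀, δ, R'', hρ₀, hδ, hB, hρ, hest⟩ := path_data hP hK hqc hg.continuous
  set R' : ℝ := max R R'' with hR'
  have hRR' : R ≤ R' := le_max_left _ _
  obtain ⟨J, hJ, hstep⟩ := path_steps (P := P) hP (ε := δ / (2 * (ρ₀ + 1))) (by positivity)
  have hB0 : 0 ≤ B := (norm_nonneg _).trans (hB 0 ⟨le_rfl, zero_le_one⟩)
  set b' : ℝ := b - (C + 1) with hb'
  have hext := dom_ext F L q Q g (R - 1) R R' R b (by linarith) hRR' (hDm R' R) hg hgp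
    (dirQ_of_Bd fun R₂ hR₂ => hR₁ R₂ (by linarith [hR₂.1]) R (by linarith))
  have hback := dom_back F L q Q g (R - 2) (R - 1) R R b' (by linarith) (by linarith) (hDm R R)
    hg hgp (dirQ_of_Bd fun R₂ hR₂ => hR₁ R₂ (by linarith [hR₂.1]) R (by linarith))
  have hun := unif (hDm R R) hQc hQp one_pos
  obtain ⟨m₀, hm₀⟩ := exists_nat_gt (2 * (B + 1) / δ)
  filter_upwards [hext, hback, hun, eventually_gt_atTop 0, eventually_ge_atTop m₀]
    with m hext hback hun hm hmm j c hc hdc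
  have hm' : (0 : ℝ) < m := by exact_mod_cast hm
  have hsmall : (B + 1) / m + δ / (2 * (ρ₀ + 1)) * ρ₀ < δ := by
    have h1 : (B + 1) / m < δ / 2 := by
      have h2 : 2 * (B + 1) / δ < m := hm₀.trans_le (by exact_mod_cast hmm)
      rw [div_lt_iff₀ hδ] at h2
      rw [div_lt_iff₀ hm']
      linarith
    have h2 : δ / (2 * (ρ₀ + 1)) * ρ₀ ≤ δ / 2 := by
      rw [div_mul_eq_mul_div, div_le_iff₀ (by positivity)]
      nlinarith
    linarith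
  obtain ⟨c', hc', hdc', hcc⟩ := hext (j + 1) c hc hdc
  have hX₁i : Inv (lam L m) (Xm q (R - 1) m) := Xm_inv hqp (R - 1) hm
  have hA₁i : Inv (lam L m) (Lv q Q g (R - 1) R b' m) := Lv_inv hqp hQp hgp (R - 1) R b' hm
  -- the live vertices
  have hlive : ∀ σ, In (Xm q (R - 1) m) σ → ¬ (∀ v ∈ σ, v ∈ Lv q Q g (R - 1) R b' m) →
      ∀ v ∈ σ, ∃ l ∈ L, ps m v + rl l ∈ K := by
    intro σ hσ hn v hv
    push Not at hn
    obtain ⟨u, hu, hu'⟩ := hn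
    have hqu : q (ps m u) ≤ R - 1 := hσ.2 u hu
    have h4 : ¬ (Q (ps m u) ≤ -R ∨ g (ps m u) ≤ b') := fun h => hu' ⟨hqu, h⟩
    push Not at h4
    have h6 := hun u v (by linarith) h4.1.le (adj_le (hσ.1 u hu v hv))
    have h7 := (abs_lt.1 h6).1
    have hqv : q (ps m v) ≤ R - 1 := hσ.2 v hv
    exact hK' _ (by linarith) (by linarith [h4.1])
  -- the estimate
  have hkey : ∀ (τ : Finset (ι → ℤ)), Simp τ → ∀ v₀ ∈ τ, (∃ l ∈ L, ps m v₀ + rl l ∈ K) →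
      ∀ k < J, ∀ w, InCar (loP P J) (hiP P J) k τ w →
        q (ps m w) ≤ R' ∧ g (ps m w) < g (ps m v₀) + C + 1 := by
    rintro τ hτ v₀ hv₀ ⟨l, hl, hlK⟩ k hk w hw
    have h1 := (use_box hlat hm hB hρ₀ hstep hτ hv₀ hl (hρ _ hlK) hk hw).trans_lt hsmall
    have hJ' : (0 : ℝ) < J := by exact_mod_cast hJ
    have ht : ((k : ℝ) / J) ∈ Set.Icc (0 : ℝ) 1 := by
      refine ⟨by positivity, ?_⟩
      rw [div_le_one hJ']
      exact_mod_cast hk.le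
    have e : (ps m w + rl l) - P ((k : ℝ) / J) (ps m v₀ + rl l) =
        ps m w - P ((k : ℝ) / J) (ps m v₀) := by
      rw [map_add, hlat _ l hl]
      abel
    rw [← e] at h1
    obtain ⟨h2, h3⟩ := hest _ ht _ hlK _ h1
    rw [hqp l hl] at h2
    rw [hgp l hl, map_add, hlat _ l hl, hgp l hl] at h3
    exact ⟨h2.trans (le_max_right _ _), by linarith [hgP ((k : ℝ) / J) (ps m v₀)]⟩
  obtain ⟨β, hβ, hβ'⟩ := use_grid (F := F) (L := lam L m) (X₁ := Xm q (R - 1) m)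
    (X' := Xm q R' m) (A := Lv q Q g R' R b m) (A' := Lv q Q g (R - 1) R b' m) hX₁i hA₁i
    (hcar m J hm hJ) (fun σ hσ hn k hk w hw => by
      have hne : ∃ v₀, v₀ ∈ σ := by
        obtain ⟨v, hv, -⟩ := (hw (Classical.arbitrary ι)).1
        exact ⟨v, hv⟩
      obtain ⟨v₀, hv₀⟩ := hne
      exact (hkey σ hσ.1 v₀ hv₀ (hlive σ hσ hn v₀ hv₀) k hk w hw).1)
    (fun σ hσ hn τ hτ hA k hk w hw => by
      have hne : ∃ v₀, v₀ ∈ τ := by
        obtain ⟨v, hv, -⟩ := (hw (Classical.arbitrary ι)).1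
        exact ⟨v, hv⟩
      obtain ⟨v₀, hv₀⟩ := hne
      obtain ⟨h1, h2⟩ := hkey τ (hσ.1.mono hτ) v₀ hv₀ (hlive σ hσ hn v₀ (hτ hv₀)) k hk w hw
      have h3 : g (ps m v₀) ≤ b' := by
        rcases (hA v₀ hv₀).2 with h | h
        · linarith [hgQ (ps m v₀)]
        · exact h
      exact ⟨h1, Or.inr (by linarith)⟩)
    j hc' hdc'
  -- back to the domain
  have hπX : ∀ R₂ : ℝ, PInv π (Xm q R₂ m) := fun R₂ v => by
    show q (ps m v) ≤ R₂ ↔ q (ps m (v ∘ π)) ≤ R₂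
    have e : ps m (v ∘ π) = ps m v ∘ π := rfl
    rw [e, hπq]
  have hπA : ∀ R₂ b₂ : ℝ, PInv π (Lv q Q g R₂ R b₂ m) := fun R₂ b₂ v => by
    have e : ps m (v ∘ π) = ps m v ∘ π := rfl
    show (q (ps m v) ≤ R₂ ∧ (Q (ps m v) ≤ -R ∨ g (ps m v) ≤ b₂)) ↔
      (q (ps m (v ∘ π)) ≤ R₂ ∧ (Q (ps m (v ∘ π)) ≤ -R ∨ g (ps m (v ∘ π)) ≤ b₂))
    rw [e, hπq, hπQ, hπg]
  have hlm : ∀ l ∈ lam L m, l ∘ π = l := by
    rintro _ ⟨l, hl, rfl⟩
    funext i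
    have h1 := congrFun (hlπ l hl) i
    simp only [Function.comp_apply, Pi.smul_apply] at h1 ⊢
    rw [h1]
  have hcb := co_anti (F := F) (L := lam L m) (X := Xm q R m)
    (Lv_mono q Q g R R (show b' ≤ b by linarith) m) (j + 1) hc
  have hw : c - Tp π c ∈ co (F := F) (lam L m) (Xm q R m) (Lv q Q g R R b' m) (j + 1) :=
    Submodule.sub_mem _ hcb (Free_T_mem hlm (hπX R) (hπA R b') hcb)
  have hdw : dX (Xm q R m) (c - Tp π c) = 0 := by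
    rw [map_sub, Free_dT (hπX R), hdc, map_zero, sub_zero]
  refine hback j _ hw hdw β hβ fun σ hσ => ?_
  by_cases hl : ∀ v ∈ σ, v ∈ Lv q Q g (R - 1) R b' m
  · have h1 : (c - Tp π c) σ = 0 := by
      by_contra h
      exact (hw.2 σ h).2.1 fun v hv => ⟨(hl v hv).1.trans (by linarith), (hl v hv).2⟩
    rw [h1, dX_apply, if_pos hσ]
    refine (Finset.sum_eq_zero fun v _ => ?_).symm
    have h2 : β (σ.erase v) = 0 := by
      by_contra h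
      exact (hβ.2 _ h).2.1 fun u hu => hl u (Finset.mem_of_mem_erase hu)
    rw [h2, mul_zero]
  · rw [← hβ' σ hσ hl, Pi.sub_apply, hcc σ hσ, Free_Tp, Free_Tp,
      hcc _ ((Free_In (hπX (R - 1))).2 hσ)]

end Pool.Agent.H50.FU
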