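import Pool.Agent.H64.FU.Dom
import Pool.Agent.H47.ST.Free

/-!
# Project FULL, PSL: use of the carrier homotopy

From the carrier homotopy (on one grid) and a path of linear maps to the phase slip property.
-/

set_option autoImplicit false

namespace Pool.Agent.H50.FU

open Filter Topology
open Pool.Agent.H47.ST
open Pool.Agent.H64.FU

variable {ι : Type*} [Fintype ι] [DecidableEq ι]

/-- `w` lies in the box of `σ` between the times `k` and `k + 1` -/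
def InCar (lo hi : ℕ → (ι → ℤ) → (ι → ℤ)) (k : ℕ) (σ : Finset (ι → ℤ)) (w : ι → ℤ) : Prop :=
  ∀ i, (∃ v ∈ σ, lo k v i ≤ w i ∨ lo (k + 1) v i ≤ w i) ∧
    (∃ v ∈ σ, w i ≤ hi k v i ∨ w i ≤ hi (k + 1) v i)

/-- the conclusion of the carrier theorem -/
def CarOut (F : Type*) [Field F] (L : AddSubgroup (ι → ℤ)) (π : Equiv.Perm ι) (J : ℕ)
    (lo hi : ℕ → (ι → ℤ) → (ι → ℤ)) : Prop :=
  ∃ H : Co ι F →ₗ[F] Co ι F,
    (∀ a σ, Simp σ → a σ - Tp π a σ = dd (H a) σ + H (dd a) σ) ∧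
    (∀ a σ, H a σ ≠ 0 → ∃ ρ : Finset (ι → ℤ), a ρ ≠ 0 ∧ Simp ρ ∧ ρ.card = σ.card + 1 ∧
      ∃ k < J, ∀ w ∈ ρ, InCar lo hi k σ w) ∧
    (∀ a, (∀ l ∈ L, ∀ σ, a (tr l σ) = a σ) → ∀ l ∈ L, ∀ σ, H a (tr l σ) = H a σ)

omit [Fintype ι] [DecidableEq ι] in
theorem use_tr_all {L : AddSubgroup (ι → ℤ)} {A : Set (ι → ℤ)} (hA : Inv L A) {l : ι → ℤ}
    (hl : l ∈ L) (σ : Finset (ι → ℤ)) : (∀ v ∈ tr l σ, v ∈ A) ↔ ∀ v ∈ σ, v ∈ A := by
  constructor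
  · intro h v hv
    exact (hA l hl v).2 (h _ (CellA_tr_mem.2 ⟨v, hv, rfl⟩))
  · intro h w hw
    obtain ⟨v, hv, rfl⟩ := CellA_tr_mem.1 hw
    exact (hA l hl v).1 (h v hv)

/-- **Use of the carrier homotopy**, combinatorial part. -/
theorem use_grid {F : Type*} [Field F] {L : AddSubgroup (ι → ℤ)} {X₁ X' A A' : Set (ι → ℤ)}
    (hX₁ : Inv L X₁) (hA' : Inv L A') {π : Equiv.Perm ι} {J : ℕ}
    {lo hi : ℕ → (ι → ℤ) → (ι → ℤ)} (hC : CarOut F L π J lo hi)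
    (hG1 : ∀ σ, In X₁ σ → ¬ (∀ v ∈ σ, v ∈ A') → ∀ k < J, ∀ w, InCar lo hi k σ w → w ∈ X')
    (hG2 : ∀ σ, In X₁ σ → ¬ (∀ v ∈ σ, v ∈ A') → ∀ τ ⊆ σ, (∀ v ∈ τ, v ∈ A') → ∀ k < J,
      ∀ w, InCar lo hi k τ w → w ∈ A)
    (j : ℕ) {c : Co ι F} (hc : c ∈ co (F := F) L X' A (j + 1)) (hd : dX X' c = 0) :
    ∃ β ∈ co (F := F) L X₁ A' j, ∀ σ, In X₁ σ → ¬ (∀ v ∈ σ, v ∈ A') →
      c σ - Tp π c σ = dX X₁ β σ := by
  classical
  obtain ⟨H, h1, h2, h3⟩ := hC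
  refine ⟨cut (fun σ => In X₁ σ ∧ ¬ (∀ v ∈ σ, v ∈ A')) (H c), ⟨fun l hl σ => ?_, fun σ hσ => ?_⟩,
    fun σ hσ hn => ?_⟩
  · rw [cut_apply, cut_apply]
    have e : (In X₁ (tr l σ) ∧ ¬ (∀ v ∈ tr l σ, v ∈ A')) ↔ (In X₁ σ ∧ ¬ (∀ v ∈ σ, v ∈ A')) := by
      rw [CellA_tr_In hX₁ hl, use_tr_all hA' hl]
    by_cases h : In X₁ σ ∧ ¬ (∀ v ∈ σ, v ∈ A')
    · rw [if_pos h, if_pos (e.2 h), h3 c hc.1 l hl]
    · rw [if_neg h, if_neg fun h' => h (e.1 h')]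
  · rw [cut_apply] at hσ
    split_ifs at hσ with hp
    · obtain ⟨ρ, hρ, -, hcard, -⟩ := h2 c σ hσ
      have h4 := (hc.2 ρ hρ).2.2
      exact ⟨hp.1, hp.2, by omega⟩
    · exact absurd rfl hσ
  · have e1 := h1 c σ hσ.1
    have e2 : H (dd c) σ = 0 := by
      by_contra hne
      obtain ⟨ρ, hρ, hs, -, k, hk, hw⟩ := h2 (dd c) σ hne
      have hin : In X' ρ := ⟨hs, fun w hw' => hG1 σ hσ hn k hk w (hw w hw')⟩
      have h4 := congrFun hd ρ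
      rw [dX_apply, if_pos hin, ← dd_apply] at h4
      exact hρ h4
    rw [e2, add_zero] at e1
    rw [e1, dX_apply, if_pos hσ, dd_apply]
    refine Finset.sum_congr rfl fun v hv => ?_
    rw [cut_apply]
    split_ifs with hp
    · rfl
    · have hface : ∀ u ∈ σ.erase v, u ∈ A' := by
        by_contra hcon
        exact hp ⟨CellA_In_erase hσ v, hcon⟩
      have h5 : H c (σ.erase v) = 0 := by
        by_contra hne
        obtain ⟨ρ, hρ, hs, -, k, hk, hw⟩ := h2 c _ hne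
        exact (hc.2 ρ hρ).2.1 fun w hw' =>
          hG2 σ hσ hn _ (Finset.erase_subset _ _) hface k hk w (hw w hw')
      rw [h5]

/-! ### The boxes of a path of linear maps -/

/-- lower corner -/
noncomputable def loP (P : ℝ → ((ι → ℝ) →L[ℝ] (ι → ℝ))) (J j : ℕ) (v : ι → ℤ) : ι → ℤ :=
  fun i => ⌊P ((j : ℝ) / J) (rl v) i⌋

/-- upper corner -/
noncomputable def hiP (P : ℝ → ((ι → ℝ) →L[ℝ] (ι → ℝ))) (J j : ℕ) (v : ι → ℤ) : ι → ℤ :=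
  fun i => ⌈P ((j : ℝ) / J) (rl v) i⌉

omit [DecidableEq ι] in
theorem loP_le_hiP (P : ℝ → ((ι → ℝ) →L[ℝ] (ι → ℝ))) (J j : ℕ) (v : ι → ℤ) :
    loP P J j v ≤ hiP P J j v := fun _ => Int.floor_le_ceil _

omit [Fintype ι] [DecidableEq ι] in
theorem use_rl_add (v w : ι → ℤ) : rl (v + w) = rl v + rl w := by
  funext i
  simp [rl]

omit [Fintype ι] [DecidableEq ι] in
theorem use_rl_smul (m : ℕ) (v : ι → ℤ) : rl ((m : ℤ) • v) = (m : ℝ) • rl v := by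
  funext i
  simp [rl]

omit [Fintype ι] [DecidableEq ι] in
theorem use_ps (m : ℕ) (v : ι → ℤ) : ps m v = (m : ℝ)⁻¹ • rl v := by
  funext i
  simp [ps, rl, div_eq_inv_mul]

omit [DecidableEq ι] in
theorem P_lam {L : AddSubgroup (ι → ℤ)} {P : ℝ → ((ι → ℝ) →L[ℝ] (ι → ℝ))}
    (hlat : ∀ t, ∀ l ∈ L, P t (rl l) = rl l) (t : ℝ) (m : ℕ) {l : ι → ℤ} (hl : l ∈ lam L m) :
    P t (rl l) = rl l := by
  obtain ⟨l', hl', rfl⟩ := hl
  rw [use_rl_smul, map_smul, hlat t l' hl']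

omit [DecidableEq ι] in
theorem loP_add {L : AddSubgroup (ι → ℤ)} {P : ℝ → ((ι → ℝ) →L[ℝ] (ι → ℝ))}
    (hlat : ∀ t, ∀ l ∈ L, P t (rl l) = rl l) (J j m : ℕ) {l : ι → ℤ} (hl : l ∈ lam L m)
    (v : ι → ℤ) : loP P J j (v + l) = loP P J j v + l := by
  funext i
  simp only [loP, Pi.add_apply]
  rw [use_rl_add, map_add, P_lam hlat _ m hl, Pi.add_apply]
  exact Int.floor_add_intCast _ _

omit [DecidableEq ι] in
theorem hiP_add {L : AddSubgroup (ι → ℤ)} {P : ℝ → ((ι → ℝ) →L[ℝ] (ι → ℝ))}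
    (hlat : ∀ t, ∀ l ∈ L, P t (rl l) = rl l) (J j m : ℕ) {l : ι → ℤ} (hl : l ∈ lam L m)
    (v : ι → ℤ) : hiP P J j (v + l) = hiP P J j v + l := by
  funext i
  simp only [hiP, Pi.add_apply]
  rw [use_rl_add, map_add, P_lam hlat _ m hl, Pi.add_apply]
  exact Int.ceil_add_intCast _ _

omit [DecidableEq ι] in
theorem loP_zero {P : ℝ → ((ι → ℝ) →L[ℝ] (ι → ℝ))} (h0 : ∀ y, P 0 y = y) (J : ℕ) (v : ι → ℤ) :
    loP P J 0 v = v := by
  funext i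
  simp only [loP, Nat.cast_zero, zero_div, h0]
  exact Int.floor_intCast _

omit [DecidableEq ι] in
theorem hiP_zero {P : ℝ → ((ι → ℝ) →L[ℝ] (ι → ℝ))} (h0 : ∀ y, P 0 y = y) (J : ℕ) (v : ι → ℤ) :
    hiP P J 0 v = v := by
  funext i
  simp only [hiP, Nat.cast_zero, zero_div, h0]
  exact Int.ceil_intCast _

omit [DecidableEq ι] in
theorem loP_one {P : ℝ → ((ι → ℝ) →L[ℝ] (ι → ℝ))} {π : Equiv.Perm ι} (h1 : ∀ y, P 1 y = y ∘ π)
    {J : ℕ} (hJ : 0 < J) (v : ι → ℤ) : loP P J J v = v ∘ π := by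
  funext i
  have hJ' : (J : ℝ) ≠ 0 := by exact_mod_cast hJ.ne'
  simp only [loP, div_self hJ', h1]
  exact Int.floor_intCast _

omit [DecidableEq ι] in
theorem hiP_one {P : ℝ → ((ι → ℝ) →L[ℝ] (ι → ℝ))} {π : Equiv.Perm ι} (h1 : ∀ y, P 1 y = y ∘ π)
    {J : ℕ} (hJ : 0 < J) (v : ι → ℤ) : hiP P J J v = v ∘ π := by
  funext i
  have hJ' : (J : ℝ) ≠ 0 := by exact_mod_cast hJ.ne'
  simp only [hiP, div_self hJ', h1]
  exact Int.ceil_intCast _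

omit [DecidableEq ι] in
/-- the points of the box of `σ` are close to the image of a vertex of `σ` -/
theorem use_box {L : AddSubgroup (ι → ℤ)} {P : ℝ → ((ι → ℝ) →L[ℝ] (ι → ℝ))}
    (hlat : ∀ t, ∀ l ∈ L, P t (rl l) = rl l) {J m : ℕ} (hm : 0 < m) {B ρ₀ ε : ℝ}
    (hB : ∀ t ∈ Set.Icc (0 : ℝ) 1, ‖P t‖ ≤ B) (hρ₀ : 0 ≤ ρ₀)
    (hε : ∀ k < J, ‖P (((k + 1 : ℕ) : ℝ) / J) - P ((k : ℝ) / J)‖ ≤ ε)
    {σ : Finset (ι → ℤ)} (hσ : Simp σ) {v₀ : ι → ℤ} (hv₀ : v₀ ∈ σ) {l : ι → ℤ} (hl : l ∈ L)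
    (hb : ‖ps m v₀ + rl l‖ ≤ ρ₀) {k : ℕ} (hk : k < J) {w : ι → ℤ}
    (hw : InCar (loP P J) (hiP P J) k σ w) :
    ‖ps m w - P ((k : ℝ) / J) (ps m v₀)‖ ≤ (B + 1) / m + ε * ρ₀ := by
  have hm' : (0 : ℝ) < m := by exact_mod_cast hm
  have hJ : 0 < J := by omega
  have hJ' : (0 : ℝ) < J := by exact_mod_cast hJ
  have hε0 : 0 ≤ ε := (norm_nonneg _).trans (hε k hk)
  have ht : ∀ i : ℕ, i ≤ J → ((i : ℝ) / J) ∈ Set.Icc (0 : ℝ) 1 := by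
    intro i hi
    refine ⟨by positivity, ?_⟩
    rw [div_le_one hJ']
    exact_mod_cast hi
  have hB0 : 0 ≤ B := (norm_nonneg _).trans (hB 0 ⟨le_rfl, zero_le_one⟩)
  -- vectors at one time
  have h1 : ∀ v ∈ σ, ∀ i : ℕ, i ≤ J →
      ‖P ((i : ℝ) / J) (rl v) - P ((i : ℝ) / J) (rl v₀)‖ ≤ B := by
    intro v hv i hi
    rw [← map_sub]
    refine ((P ((i : ℝ) / J)).le_opNorm _).trans ?_
    have h2 : ‖rl v - rl v₀‖ ≤ 1 := by
      rw [pi_norm_le_iff_of_nonneg zero_le_one]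
      intro a
      have h3 := adj_le (hσ v₀ hv₀ v hv) a
      rw [Real.norm_eq_abs, Pi.sub_apply]
      simp only [rl]
      rw [← Int.cast_sub, ← Int.cast_abs]
      exact_mod_cast h3
    calc ‖P ((i : ℝ) / J)‖ * ‖rl v - rl v₀‖ ≤ B * 1 :=
          mul_le_mul (hB _ (ht i hi)) h2 (norm_nonneg _) hB0
      _ = B := mul_one _
  -- two times
  have h2 : ‖P (((k + 1 : ℕ) : ℝ) / J) (rl v₀) - P ((k : ℝ) / J) (rl v₀)‖ ≤ ε * (m * ρ₀) := by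
    have e : P (((k + 1 : ℕ) : ℝ) / J) (rl v₀) - P ((k : ℝ) / J) (rl v₀) =
        (P (((k + 1 : ℕ) : ℝ) / J) - P ((k : ℝ) / J)) ((m : ℝ) • (ps m v₀ + rl l)) := by
      have e1 : (m : ℝ) • (ps m v₀ + rl l) = rl v₀ + (m : ℝ) • rl l := by
        rw [smul_add, use_ps, smul_smul, mul_inv_cancel₀ hm'.ne', one_smul]
      rw [e1, map_add, map_smul, sub_apply, sub_apply, hlat _ l hl, hlat _ l hl, sub_self,
        smul_zero, add_zero]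
    rw [e]
    refine (ContinuousLinearMap.le_opNorm _ _).trans ?_
    rw [norm_smul, Real.norm_eq_abs, abs_of_pos hm']
    exact mul_le_mul (hε k hk) (mul_le_mul_of_nonneg_left hb hm'.le) (by positivity) hε0
  -- every vertex and both times
  have h3 : ∀ v ∈ σ, ∀ i : ℕ, (i = k ∨ i = k + 1) → ∀ a,
      |P ((i : ℝ) / J) (rl v) a - P ((k : ℝ) / J) (rl v₀) a| ≤ B + ε * (m * ρ₀) := by
    intro v hv i hi a
    have h4 := (norm_le_pi_norm _ a).trans (h1 v hv i (by omega))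
    rw [Real.norm_eq_abs, Pi.sub_apply] at h4
    have h5 : |P ((i : ℝ) / J) (rl v₀) a - P ((k : ℝ) / J) (rl v₀) a| ≤ ε * (m * ρ₀) := by
      rcases hi with rfl | rfl
      · rw [sub_self, abs_zero]
        positivity
      · have h6 := (norm_le_pi_norm _ a).trans h2
        rwa [Real.norm_eq_abs, Pi.sub_apply] at h6
    have e : P ((i : ℝ) / J) (rl v) a - P ((k : ℝ) / J) (rl v₀) a =
        (P ((i : ℝ) / J) (rl v) a - P ((i : ℝ) / J) (rl v₀) a) +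
          (P ((i : ℝ) / J) (rl v₀) a - P ((k : ℝ) / J) (rl v₀) a) := by ring
    rw [e]
    exact (abs_add_le _ _).trans (add_le_add h4 h5)
  have hr0 : 0 ≤ (B + 1) / m + ε * ρ₀ := by positivity
  rw [pi_norm_le_iff_of_nonneg hr0]
  intro a
  obtain ⟨⟨v, hv, hlo⟩, ⟨v', hv', hhi⟩⟩ := hw a
  have hwlo : P ((k : ℝ) / J) (rl v₀) a - (B + 1 + ε * (m * ρ₀)) ≤ (w a : ℝ) := by
    have h6 : ∀ i : ℕ, (i = k ∨ i = k + 1) → loP P J i v a ≤ w a →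
        P ((k : ℝ) / J) (rl v₀) a - (B + 1 + ε * (m * ρ₀)) ≤ (w a : ℝ) := by
      intro i hi h7
      have h8 := (abs_le.1 (h3 v hv i hi a)).1
      have h9 := Int.lt_floor_add_one (P ((i : ℝ) / J) (rl v) a)
      have h10 : ((loP P J i v a : ℤ) : ℝ) ≤ (w a : ℝ) := by exact_mod_cast h7
      simp only [loP] at h10
      linarith
    rcases hlo with h | h
    · exact h6 k (Or.inl rfl) h
    · exact h6 (k + 1) (Or.inr rfl) h
  have hwhi : (w a : ℝ) ≤ P ((k : ℝ) / J) (rl v₀) a + (B + 1 + ε * (m * ρ₀)) := by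
    have h6 : ∀ i : ℕ, (i = k ∨ i = k + 1) → w a ≤ hiP P J i v' a →
        (w a : ℝ) ≤ P ((k : ℝ) / J) (rl v₀) a + (B + 1 + ε * (m * ρ₀)) := by
      intro i hi h7
      have h8 := (abs_le.1 (h3 v' hv' i hi a)).2
      have h9 := Int.ceil_lt_add_one (P ((i : ℝ) / J) (rl v') a)
      have h10 : (w a : ℝ) ≤ ((hiP P J i v' a : ℤ) : ℝ) := by exact_mod_cast h7
      simp only [hiP] at h10
      linarith
    rcases hhi with h | h
    · exact h6 k (Or.inl rfl) h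
    · exact h6 (k + 1) (Or.inr rfl) h
  rw [Real.norm_eq_abs, Pi.sub_apply, use_ps, use_ps, map_smul, Pi.smul_apply, Pi.smul_apply,
    smul_eq_mul, smul_eq_mul, ← mul_sub, abs_mul, abs_of_pos (inv_pos.2 hm')]
  have h7 : |rl w a - P ((k : ℝ) / J) (rl v₀) a| ≤ B + 1 + ε * (m * ρ₀) := by
    rw [abs_le]
    simp only [rl] at hwlo hwhi ⊢
    constructor <;> linarith
  calc (m : ℝ)⁻¹ * |rl w a - P ((k : ℝ) / J) (rl v₀) a|
      ≤ (m : ℝ)⁻¹ * (B + 1 + ε * (m * ρ₀)) :=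
        mul_le_mul_of_nonneg_left h7 (inv_pos.2 hm').le
    _ = (B + 1) / m + ε * ρ₀ := by
        field_simp

end Pool.Agent.H50.FU
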